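import Mathlib

/-!
MP_02ec02 (Q1): for every `n ≥ 4` divisible by 2 or by 3 the maximal cyclic sorting time
satisfies `t(n) ≤ n - 3`.
-/

open Finset

namespace Pool.Agent.Results.MP_02ec02_co.NotCoprimeToSix

/-- number of cycles, fixed points included -/
def cyc {n : ℕ} (σ : Equiv.Perm (Fin n)) : ℕ := Multiset.card σ.partition.parts

/-- the sorting time of the class `π C_n`: the least `n - cyc σ` over `σ = π c^i`, `i < n` -/
def sortTime {n : ℕ} (hn : 0 < n) (π : Equiv.Perm (Fin n)) : ℕ :=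
  (univ : Finset (Fin n)).inf' ⟨⟨0, hn⟩, mem_univ _⟩
    (fun i => n - cyc (π * (finRotate n) ^ (i : ℕ)))

/-- the maximal cyclic sorting time -/
def t (n : ℕ) (hn : 0 < n) : ℕ := (univ : Finset (Equiv.Perm (Fin n))).sup (sortTime hn)

theorem cyc_eq {n : ℕ} (σ : Equiv.Perm (Fin n)) :
    cyc σ = Multiset.card σ.cycleType + (n - σ.support.card) := by
  unfold cyc
  rw [Equiv.Perm.parts_partition, Multiset.card_add, Multiset.card_replicate, Fintype.card_fin]

theorem supp_le {n : ℕ} (σ : Equiv.Perm (Fin n)) : σ.support.card ≤ n := by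
  have := card_le_univ σ.support
  rwa [Fintype.card_fin] at this

theorem sign_eq {n : ℕ} (σ : Equiv.Perm (Fin n)) :
    Equiv.Perm.sign σ = (-1) ^ (n + cyc σ) := by
  have h1 := supp_le σ
  rw [Equiv.Perm.sign_of_cycleType, Equiv.Perm.sum_cycleType]
  have h2 : n + cyc σ = (σ.support.card + Multiset.card σ.cycleType)
      + 2 * (n - σ.support.card) := by
    rw [cyc_eq]
    omega
  rw [h2, pow_add _ (σ.support.card + Multiset.card σ.cycleType), pow_mul]
  simp

theorem rot_val (m k : ℕ) (x : Fin (m + 1)) :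
    (((finRotate (m + 1)) ^ k) x).val = (x.val + k) % (m + 1) := by
  induction k with
  | zero =>
    simp [Nat.mod_eq_of_lt x.2]
  | succ k ih =>
    rw [pow_succ', Equiv.Perm.mul_apply, finRotate_apply, Fin.val_add, ih, Fin.val_one',
      ← Nat.add_mod]
    rfl

theorem rot_pow (m : ℕ) (i x : Fin (m + 1)) :
    ((finRotate (m + 1)) ^ (i : ℕ)) x = x + i := by
  apply Fin.ext
  rw [rot_val, Fin.val_add]

theorem sum_fixed (m : ℕ) (π : Equiv.Perm (Fin (m + 1))) :
    ∑ i : Fin (m + 1), (m + 1 - (π * (finRotate (m + 1)) ^ (i : ℕ)).support.card) = m + 1 := by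
  have h1 : ∀ i : Fin (m + 1), m + 1 - (π * (finRotate (m + 1)) ^ (i : ℕ)).support.card
      = ∑ x : Fin (m + 1), if π (x + i) = x then 1 else 0 := by
    intro i
    rw [← card_filter]
    have h2 : (univ.filter (fun x : Fin (m + 1) => π (x + i) = x))
        = ((π * (finRotate (m + 1)) ^ (i : ℕ)).support)ᶜ := by
      ext x
      rw [mem_filter, mem_compl, Equiv.Perm.mem_support, not_not, Equiv.Perm.mul_apply, rot_pow]
      simp
    rw [h2, card_compl, Fintype.card_fin]
  rw [sum_congr rfl (fun i _ => h1 i), sum_comm]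
  have h3 : ∀ x : Fin (m + 1), ∑ i : Fin (m + 1), (if π (x + i) = x then 1 else 0) = 1 := by
    intro x
    rw [sum_eq_single (π.symm x - x)]
    · rw [if_pos]
      rw [add_sub_cancel, Equiv.apply_symm_apply]
    · intro i _ hi
      rw [if_neg]
      intro h
      apply hi
      have h4 : x + i = π.symm x := by rw [← h, Equiv.symm_apply_apply, h]
      rw [← h4]
      abel
    · intro h
      exact absurd (mem_univ _) h
  rw [sum_congr rfl (fun x _ => h3 x)]
  simp

/-- if all rotations have at most two cycles then all are `(n-1)`-cycles -/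
theorem all_long (m : ℕ) (hm : 4 ≤ m + 1) (π : Equiv.Perm (Fin (m + 1)))
    (hno : ∀ i : Fin (m + 1), cyc (π * (finRotate (m + 1)) ^ (i : ℕ)) < 3) :
    ∀ i : Fin (m + 1), cyc (π * (finRotate (m + 1)) ^ (i : ℕ)) = 2 ∧
      (π * (finRotate (m + 1)) ^ (i : ℕ)).support.card = m ∧
      (π * (finRotate (m + 1)) ^ (i : ℕ)).IsCycle := by
  have hct : ∀ σ : Equiv.Perm (Fin (m + 1)), 0 < σ.support.card →
      1 ≤ Multiset.card σ.cycleType := by
    intro σ hσ
    have h1 : σ.cycleType ≠ 0 := by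
      intro h
      have h2 := Equiv.Perm.sum_cycleType σ
      rw [h] at h2
      simp only [Multiset.sum_zero] at h2
      omega
    exact Multiset.card_pos.mpr h1
  have hle : ∀ i : Fin (m + 1),
      m + 1 - (π * (finRotate (m + 1)) ^ (i : ℕ)).support.card ≤ 1 := by
    intro i
    by_contra h
    push Not at h
    have h1 := hno i
    rw [cyc_eq] at h1
    rcases Nat.eq_zero_or_pos (π * (finRotate (m + 1)) ^ (i : ℕ)).support.card with h2 | h2
    · omega
    · have := hct _ h2
      omega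
  have hsum := sum_fixed m π
  have hsum' : ∑ i : Fin (m + 1), (m + 1 - (π * (finRotate (m + 1)) ^ (i : ℕ)).support.card)
      = ∑ i : Fin (m + 1), 1 := by
    rw [hsum]
    simp
  have heq := (sum_eq_sum_iff_of_le (fun i _ => hle i)).mp hsum'
  intro i
  have h1 := heq i (mem_univ _)
  have h2 := hno i
  have h3 := supp_le (π * (finRotate (m + 1)) ^ (i : ℕ))
  have h4 := hct (π * (finRotate (m + 1)) ^ (i : ℕ)) (by omega)
  have h5 : Multiset.card (π * (finRotate (m + 1)) ^ (i : ℕ)).cycleType = 1 := by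
    rw [cyc_eq] at h2
    omega
  refine ⟨?_, by omega, Equiv.Perm.card_cycleType_eq_one.mp h5⟩
  rw [cyc_eq]
  omega

theorem even_case (m : ℕ) (hm : 4 ≤ m + 1) (hodd : ¬ 2 ∣ m) (π : Equiv.Perm (Fin (m + 1))) :
    ∃ i : Fin (m + 1), 3 ≤ cyc (π * (finRotate (m + 1)) ^ (i : ℕ)) := by
  by_contra hno
  push Not at hno
  have hcyc := all_long m hm π hno
  have h0 := (hcyc ⟨0, by omega⟩).1
  have h1 := (hcyc ⟨1, by omega⟩).1
  simp only [pow_zero, mul_one] at h0
  simp only [pow_one] at h1
  have s0 := sign_eq π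
  have s1 := sign_eq (π * finRotate (m + 1))
  rw [h0] at s0
  rw [h1, Equiv.Perm.sign_mul, s0, sign_finRotate] at s1
  have hodd' : Odd m := Nat.not_even_iff_odd.mp (fun h => hodd h.two_dvd)
  rw [Nat.add_sub_cancel, hodd'.neg_one_pow] at s1
  have heven : Even (m + 1 + 2) := by
    obtain ⟨k, hk⟩ := hodd'
    exact ⟨k + 2, by omega⟩
  rw [heven.neg_one_pow] at s1
  exact absurd s1 (by decide)

/-- `π(x) + x` and `π(x) - x` are permutations when all rotations are long cycles -/
theorem strong (m : ℕ) (hm : 4 ≤ m + 1) (π : Equiv.Perm (Fin (m + 1)))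
    (hno : ∀ i : Fin (m + 1), cyc (π * (finRotate (m + 1)) ^ (i : ℕ)) < 3) :
    Function.Injective (fun u => π u + u) ∧ Function.Injective (fun u => π u - u) := by
  have hcyc := all_long m hm π hno
  have hap : ∀ i x : Fin (m + 1), (π * (finRotate (m + 1)) ^ (i : ℕ)) x = π (x + i) := by
    intro i x
    rw [Equiv.Perm.mul_apply, rot_pow]
  constructor
  · intro u v huv
    by_contra hne
    have huv' : π u + u = π v + v := huv
    set i := v - π u with hi
    have hu : π u = v - i := by rw [hi]; abel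
    have hv : π v = u - i := by
      have : π v = π u + u - v := by rw [huv']; abel
      rw [this, hi]
      abel
    obtain ⟨_, hs, hc⟩ := hcyc i
    set σ := π * (finRotate (m + 1)) ^ (i : ℕ) with hσ
    have hx : σ (u - i) = v - i := by
      rw [hap, sub_add_cancel, hu]
    have hy : σ (v - i) = u - i := by
      rw [hap, sub_add_cancel, hv]
    have hxne : σ (u - i) ≠ u - i := by
      rw [hx]
      intro h
      apply hne
      have := congrArg (fun z => z + i) h
      simp only [sub_add_cancel] at this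
      exact this.symm
    have hsq : (σ ^ 2) (u - i) = u - i := by
      rw [pow_two, Equiv.Perm.mul_apply, hx, hy]
    have h1 : σ ^ 2 = 1 := (hc.pow_eq_one_iff).mpr ⟨u - i, hxne, hsq⟩
    have h2 := orderOf_dvd_of_pow_eq_one h1
    rw [hc.orderOf, hs] at h2
    have := Nat.le_of_dvd (by norm_num) h2
    omega
  · intro u v huv
    by_contra hne
    have huv' : π u - u = π v - v := huv
    set i := u - π u with hi
    have hu : π u = u - i := by rw [hi]; abel
    have hv : π v = v - i := by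
      have h3 : π v = (π v - v) + v := by abel
      rw [h3, ← huv', hi]
      abel
    obtain ⟨_, hs, hc⟩ := hcyc i
    set σ := π * (finRotate (m + 1)) ^ (i : ℕ) with hσ
    have hx : σ (u - i) = u - i := by
      rw [hap, sub_add_cancel, hu]
    have hy : σ (v - i) = v - i := by
      rw [hap, sub_add_cancel, hv]
    have h1 : ({u - i, v - i} : Finset (Fin (m + 1))) ⊆ σ.supportᶜ := by
      intro z hz
      rw [mem_insert, mem_singleton] at hz
      rw [mem_compl, Equiv.Perm.mem_support, not_not]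
      rcases hz with rfl | rfl
      · exact hx
      · exact hy
    have h2 := card_le_card h1
    rw [card_pair (fun h => hne (sub_left_injective h)), card_compl, Fintype.card_fin, hs] at h2
    omega

theorem sum_sq_range (N : ℕ) : 6 * ∑ k ∈ range N, k ^ 2 + 3 * N ^ 2 = 2 * N ^ 3 + N := by
  induction N with
  | zero => simp
  | succ N ih =>
    rw [sum_range_succ, mul_add]
    nlinarith [ih]

theorem three_case (m : ℕ) (hm : 4 ≤ m + 1) (h3 : 3 ∣ m + 1) (π : Equiv.Perm (Fin (m + 1))) :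
    ∃ i : Fin (m + 1), 3 ≤ cyc (π * (finRotate (m + 1)) ^ (i : ℕ)) := by
  by_contra hno
  push Not at hno
  obtain ⟨hp, hq⟩ := strong m hm π hno
  -- work in ZMod
  let f : ZMod (m + 1) → ZMod (m + 1) := fun u => π u
  have hf : Function.Bijective f := π.bijective
  have hp' : Function.Bijective (fun u : ZMod (m + 1) => f u + u) :=
    Finite.injective_iff_bijective.mp hp
  have hq' : Function.Bijective (fun u : ZMod (m + 1) => f u - u) :=
    Finite.injective_iff_bijective.mp hq
  have s1 : ∑ u : ZMod (m + 1), (f u + u) ^ 2 = ∑ u : ZMod (m + 1), u ^ 2 :=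
    Function.Bijective.sum_comp hp' (fun u => u ^ 2)
  have s2 : ∑ u : ZMod (m + 1), (f u - u) ^ 2 = ∑ u : ZMod (m + 1), u ^ 2 :=
    Function.Bijective.sum_comp hq' (fun u => u ^ 2)
  have s3 : ∑ u : ZMod (m + 1), (f u) ^ 2 = ∑ u : ZMod (m + 1), u ^ 2 :=
    Function.Bijective.sum_comp hf (fun u => u ^ 2)
  have s4 : ∑ u : ZMod (m + 1), (f u + u) ^ 2 + ∑ u : ZMod (m + 1), (f u - u) ^ 2
      = 2 * ∑ u : ZMod (m + 1), (f u) ^ 2 + 2 * ∑ u : ZMod (m + 1), u ^ 2 := by
    rw [mul_sum, mul_sum, ← sum_add_distrib, ← sum_add_distrib]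
    apply sum_congr rfl
    intro u _
    ring
  rw [s1, s2, s3] at s4
  have s5 : 2 * ∑ u : ZMod (m + 1), u ^ 2 = 0 := by
    have : 2 * ∑ u : ZMod (m + 1), u ^ 2
        = (2 * ∑ u : ZMod (m + 1), u ^ 2 + 2 * ∑ u : ZMod (m + 1), u ^ 2)
          - (∑ u : ZMod (m + 1), u ^ 2 + ∑ u : ZMod (m + 1), u ^ 2) := by ring
    rw [this, ← s4, sub_self]
  have s6 : ∑ u : ZMod (m + 1), u ^ 2 = ((∑ k ∈ range (m + 1), k ^ 2 : ℕ) : ZMod (m + 1)) := by
    rw [← Fin.sum_univ_eq_sum_range (fun k => k ^ 2) (m + 1)]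
    push_cast
    apply sum_congr rfl
    intro u _
    congr 1
    exact (ZMod.natCast_zmod_val (n := m + 1) u).symm
  rw [s6] at s5
  have s7 : ((2 * ∑ k ∈ range (m + 1), k ^ 2 : ℕ) : ZMod (m + 1)) = 0 := by
    rw [Nat.cast_mul]
    exact s5
  rw [ZMod.natCast_eq_zero_iff] at s7
  obtain ⟨c, hc⟩ := s7
  have h6 := sum_sq_range (m + 1)
  obtain ⟨d, hd⟩ := h3
  have h7 : 3 * c + 3 * (m + 1) = 2 * (m + 1) ^ 2 + 1 := by
    have hpos : 0 < m + 1 := by omega
    apply Nat.eq_of_mul_eq_mul_left hpos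
    nlinarith [hc, h6]
  rw [hd] at h7
  have h8 : 3 * c + 3 * (3 * d) = 2 * (3 * d) ^ 2 + 1 := h7
  have h9 : 2 * (3 * d) ^ 2 + 1 = 3 * (6 * d ^ 2) + 1 := by ring
  rw [h9] at h8
  omega

/-- For every `n ≥ 4` divisible by 2 or by 3 one has `t(n) ≤ n - 3`. -/
theorem result (n : ℕ) (hn : 4 ≤ n) (h : 2 ∣ n ∨ 3 ∣ n) : t n (by omega) ≤ n - 3 := by
  obtain ⟨m, rfl⟩ : ∃ m, n = m + 1 := ⟨n - 1, by omega⟩
  unfold t
  apply Finset.sup_le
  intro π _
  have hex : ∃ i : Fin (m + 1), 3 ≤ cyc (π * (finRotate (m + 1)) ^ (i : ℕ)) := by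
    rcases h with h | h
    · exact even_case m hn (by omega) π
    · exact three_case m hn h π
  obtain ⟨i, hi⟩ := hex
  unfold sortTime
  refine le_trans (Finset.inf'_le _ (mem_univ i)) ?_
  omega

end Pool.Agent.Results.MP_02ec02_co.NotCoprimeToSix
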